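import Pool.Agent.helper12.PFS.Spec

set_option autoImplicit false

namespace Pool.Agent.PFS

section
variable {X V F : Type} [DecidableEq X] [Field F] [AddCommGroup V] [Module F V]

theorem LC_step (o : X) (τ : X → X) (r : X → Bool) (T : X ≃ X) (α : Fˣ) (t : X → V)
    (sV sV' : V → V) (l : X → F) (c : X → V) (v : X × V) (h1 : T.symm v.1 ≠ o)
    (h2 : T (τ (T.symm v.1)) ≠ o) :
    rho (lft o τ r sV l c) (tl T α t) v = rho (lft o τ r sV' l c) (tl T α t) v ∧
      (rho (lft o τ r sV l c) (tl T α t) v).1 = τ (T (τ (T.symm v.1))) := by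
  have e1 : ∀ s : V → V, lft o τ r s l c ((tl T α t).symm v)
      = (τ (T.symm v.1), fm τ r l c (T.symm v.1) (α⁻¹ • (v.2 - t (T.symm v.1)))) := by
    intro s
    have e : ((tl T α t).symm v) = (T.symm v.1, α⁻¹ • (v.2 - t (T.symm v.1))) := rfl
    rw [e, lft, if_neg h1]
  have e2 : ∀ s : V → V, ∀ w : V, lft o τ r s l c (tl T α t (τ (T.symm v.1), w))
      = (τ (T (τ (T.symm v.1))), fm τ r l c (T (τ (T.symm v.1))) (α • w + t (τ (T.symm v.1)))) := by
    intro s w
    have e : (tl T α t (τ (T.symm v.1), w)) = (T (τ (T.symm v.1)), α • w + t (τ (T.symm v.1))) := rfl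
    rw [e, lft, if_neg h2]
  constructor
  · rw [rho, rho, e1, e1, e2, e2]
  · rw [rho, e1, e2]

theorem LC_indep (o : X) (τ : X → X) (r : X → Bool) (T : X ≃ X) (α : Fˣ) (t : X → V)
    (sV sV' : V → V) (l : X → F) (c : X → V) (u : V) (h : ℕ) (hc : Cyc o τ T h) (n : ℕ) :
    n ≤ h → (rho (lft o τ r sV l c) (tl T α t))^[n] (o, u)
        = (rho (lft o τ r sV' l c) (tl T α t))^[n] (o, u) ∧
      ((rho (lft o τ r sV l c) (tl T α t))^[n] (o, u)).1 = zz o τ T (2 * n) := by
  induction n with
  | zero => intro _; exact ⟨rfl, rfl⟩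
  | succ n ih =>
    intro hn
    obtain ⟨i1, i2⟩ := ih (by omega)
    have g0 : zz o τ T 0 = o := rfl
    have h1 : T.symm (zz o τ T (2 * n)) ≠ o := by
      intro hE
      have hE2 : zz o τ T (2 * n) = T o := by
        have hE3 := congrArg T hE
        rwa [Equiv.apply_symm_apply] at hE3
      rw [← hc.last] at hE2
      have := hc.inj _ _ (by omega) (by omega) hE2
      omega
    have hz1 : zz o τ T (2 * n + 1) = T (τ (T.symm (zz o τ T (2 * n)))) := by
      rw [zz, if_pos (by omega)]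
    have hz2 : zz o τ T (2 * (n + 1)) = τ (zz o τ T (2 * n + 1)) := by
      show zz o τ T (2 * n + 1 + 1) = _
      rw [zz, if_neg (by omega)]
    have h2 : T (τ (T.symm (zz o τ T (2 * n)))) ≠ o := by
      rw [← hz1]
      intro hE
      rw [← g0] at hE
      have := hc.inj _ _ (by omega) (by omega) hE
      omega
    rw [Function.iterate_succ_apply', Function.iterate_succ_apply', ← i1]
    have hs := LC_step o τ r T α t sV sV' l c ((rho (lft o τ r sV l c) (tl T α t))^[n] (o, u))
      (by rw [i2]; exact h1) (by rw [i2]; exact h2)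
    refine ⟨hs.1, ?_⟩
    rw [hs.2, i2, hz2, hz1]

theorem LC_trans (α Λ : Fˣ) (a z : V) :
    (af α a).trans (af Λ (a - Λ • z)).symm = af (α * Λ⁻¹) z := by
  ext u
  show Λ⁻¹ • ((α • u + a) - (a - Λ • z)) = (α * Λ⁻¹) • u + z
  have e : (α • u + a) - (a - Λ • z) = α • u + Λ • z := by abel
  rw [e, smul_add, smul_smul, inv_smul_smul, mul_comm]

end

theorem LC_count (P : Type) [Finite P] (C : P → Type) [∀ p, Finite (C p)] (m M : ℕ)
    (h : ∀ p, M ≤ Nat.card (C p) * m) : Nat.card P * M ≤ Nat.card (Σ p, C p) * m := by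
  have : Fintype P := Fintype.ofFinite P
  rw [Nat.card_sigma, Finset.sum_mul, Nat.card_eq_fintype_card]
  calc Fintype.card P * M = ∑ _p : P, M := by
        rw [Finset.sum_const, Finset.card_univ, smul_eq_mul]
    _ ≤ ∑ p, Nat.card (C p) * m := Finset.sum_le_sum fun p _ => h p

theorem LC (h1 : WL_stmt) (h2 : UNI_stmt) (h3 : LIN_stmt) (h4 : CYC_stmt) (h5 : WKA_stmt)
    (h6 : WKB_stmt) (h7 : RET_stmt) : LC_stmt := by
  intro X V F Ω S _ _ _ _ _ _ _ _ ι o τ r T α t sV B hι hι0 hτ hr hgd hX hα hsV hB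
  obtain ⟨h, hc⟩ := h4 X o τ T hτ hgd
  have hh : 0 < h := by
    have := hc.card
    rw [Nat.card_eq_fintype_card] at this
    omega
  set W : List (Step X F) := (List.range (2 * h)).map (stp o τ r T (α : F)) with hW
  have hWd : Wd W := h5 X F o τ r T α h hτ hr hc hh hα
  have key : ∀ l : X → S, (∃ e, kap (fun x => ι (l x)) W e ≠ 0) →
      B * Nat.card V ^ Fintype.card X ≤
        Nat.card {q : Ω × (X → V) // Gd (lft o τ r (sV q.1) (fun x => ι (l x)) q.2) (tl T α t)}
          * Nat.card V := by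
    intro l hl
    rcases isEmpty_or_nonempty Ω with hΩ | ⟨⟨ω₀⟩⟩
    · have hB0 : B = 0 := by
        have := hB 1
        have e : Nat.card {q : Ω × V // Gd (sV q.1) (af (1 : Fˣ) q.2)} = 0 := Nat.card_of_isEmpty
        omega
      rw [hB0, zero_mul]
      exact Nat.zero_le _
    · obtain ⟨Λ, k0, hk⟩ := h6 X V F o τ r T α t h (sV ω₀) (fun x => ι (l x)) hτ hr hc
        (fun x => hι0 (l x))
      have hP := hB (α * Λ⁻¹)
      have hcount := LC_count {q : Ω × V // Gd (sV q.1) (af (α * Λ⁻¹) q.2)}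
        (fun p => {c : X → V // ∑ e, kap (fun x => ι (l x)) W e • c e = t o - k0 - Λ • p.1.2})
        (Nat.card V) (Nat.card V ^ Fintype.card X)
        (fun p => (h2 X F V (fun e => kap (fun x => ι (l x)) W e) (t o - k0 - Λ • p.1.2) hl).ge)
      have hinj : Nat.card (Σ p : {q : Ω × V // Gd (sV q.1) (af (α * Λ⁻¹) q.2)},
          {c : X → V // ∑ e, kap (fun x => ι (l x)) W e • c e = t o - k0 - Λ • p.1.2}) ≤
          Nat.card {q : Ω × (X → V) //
            Gd (lft o τ r (sV q.1) (fun x => ι (l x)) q.2) (tl T α t)} := by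
        have hgood : ∀ (p : {q : Ω × V // Gd (sV q.1) (af (α * Λ⁻¹) q.2)})
            (c : {c : X → V // ∑ e, kap (fun x => ι (l x)) W e • c e = t o - k0 - Λ • p.1.2}),
            Gd (lft o τ r (sV p.1.1) (fun x => ι (l x)) c.1) (tl T α t) := by
          intro p c
          have hinv := h3 X V F o τ r (sV p.1.1) (fun x => ι (l x)) c.1 hτ hr (hsV p.1.1)
            (fun x => hι0 (l x))
          refine h7 X V o τ T (lft o τ r (sV p.1.1) (fun x => ι (l x)) c.1) (tl T α t) (sV p.1.1)
            (af α (t o)) (af Λ (t o - Λ • p.1.2)) h hinv.inv ?_ ?_ (fun v => rfl) (fun u => rfl)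
            hgd ?_ ?_
          · intro v
            rw [lft]
            split_ifs with hv
            · show o = τ v.1
              rw [hv, (hτ.fix o).2 rfl]
            · rfl
          · intro u
            rw [lft, if_pos rfl]
          · intro u
            rw [(LC_indep o τ r T α t (sV p.1.1) (sV ω₀) (fun x => ι (l x)) c.1 u h hc h le_rfl).1,
              hk c.1 u]
            have e : (∑ e, kap (fun x => ι (l x)) ((List.range (2 * h)).map
                (stp o τ r T (α : F))) e • c.1 e) = t o - k0 - Λ • p.1.2 := c.2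
            rw [e]
            have e2 : Λ • u + (t o - k0 - Λ • p.1.2) + k0 = Λ • u + (t o - Λ • p.1.2) := by abel
            rw [e2]
            rfl
          · rw [LC_trans]
            exact p.2
        refine Nat.card_le_card_of_injective
          (fun s => ⟨(s.1.1.1, s.2.1), hgood s.1 s.2⟩) ?_
        rintro ⟨⟨⟨ω, z⟩, hp⟩, ⟨c, hcc⟩⟩ ⟨⟨⟨ω', z'⟩, hp'⟩, ⟨c', hcc'⟩⟩ heq
        have q1 := congrArg Subtype.val heq
        simp only [Prod.mk.injEq] at q1
        obtain ⟨q2, q3⟩ := q1
        subst q2 q3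
        simp only at hcc hcc'
        have q4 : Λ • z = Λ • z' := by
          have := hcc.symm.trans hcc'
          exact sub_right_injective this
        have q5 : z = z' := smul_left_cancel Λ q4
        subst q5
        rfl
      calc B * Nat.card V ^ Fintype.card X
          ≤ Nat.card {q : Ω × V // Gd (sV q.1) (af (α * Λ⁻¹) q.2)}
              * Nat.card V ^ Fintype.card X := Nat.mul_le_mul_right _ hP
        _ ≤ _ := hcount
        _ ≤ _ := Nat.mul_le_mul_right _ hinj
  -- sum over the good `l`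
  have hsum := LC_count {l : X → S // ∃ e, kap (fun x => ι (l x)) W e ≠ 0}
    (fun l => {q : Ω × (X → V) // Gd (lft o τ r (sV q.1) (fun x => ι (l.1 x)) q.2) (tl T α t)})
    (Nat.card V) (B * Nat.card V ^ Fintype.card X) (fun l => key l.1 l.2)
  have htot : Nat.card (Σ l : {l : X → S // ∃ e, kap (fun x => ι (l x)) W e ≠ 0},
      {q : Ω × (X → V) // Gd (lft o τ r (sV q.1) (fun x => ι (l.1 x)) q.2) (tl T α t)}) ≤
      Nat.card {q : Ω × (X → S) × (X → V) //
          Gd (lft o τ r (sV q.1) (fun x => ι (q.2.1 x)) q.2.2) (tl T α t)} := by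
    refine Nat.card_le_card_of_injective
      (fun s => ⟨(s.2.1.1, s.1.1, s.2.1.2), s.2.2⟩) ?_
    rintro ⟨⟨l, hl⟩, ⟨⟨ω, c⟩, hq⟩⟩ ⟨⟨l', hl'⟩, ⟨⟨ω', c'⟩, hq'⟩⟩ heq
    have q1 := congrArg Subtype.val heq
    simp only [Prod.mk.injEq] at q1
    obtain ⟨q2, q3, q4⟩ := q1
    subst q2 q3 q4
    rfl
  have hbad := h1 X F S ι W hι hι0 hWd
  have hcompl : Nat.card {l : X → S // ∃ e, kap (fun x => ι (l x)) W e ≠ 0}
      + Nat.card {l : X → S // ∀ e, kap (fun x => ι (l x)) W e = 0}
      = Nat.card S ^ Fintype.card X := by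
    have e0 : Nat.card (X → S) = Nat.card S ^ Fintype.card X := by
      rw [Nat.card_fun, Nat.card_eq_fintype_card (α := X)]
    rw [← e0]
    have e1 : ∀ l : X → S, (∃ e, kap (fun x => ι (l x)) W e ≠ 0) ↔
        ¬ (∀ e, kap (fun x => ι (l x)) W e = 0) := fun l => by push Not; rfl
    have e2 : Nat.card {l : X → S // ∃ e, kap (fun x => ι (l x)) W e ≠ 0}
        = Nat.card {l : X → S // ¬ (∀ e, kap (fun x => ι (l x)) W e = 0)} :=
      Nat.card_congr (Equiv.subtypeEquivRight e1)
    rw [e2, add_comm, ← Nat.card_sum]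
    classical
    exact Nat.card_congr (Equiv.sumCompl (fun l : X → S => ∀ e, kap (fun x => ι (l x)) W e = 0))
  set A : ℕ := Nat.card {l : X → S // ∃ e, kap (fun x => ι (l x)) W e ≠ 0} with hA
  set A' : ℕ := Nat.card {l : X → S // ∀ e, kap (fun x => ι (l x)) W e = 0} with hA'
  set G : ℕ := Nat.card {q : Ω × (X → S) × (X → V) //
          Gd (lft o τ r (sV q.1) (fun x => ι (q.2.1 x)) q.2.2) (tl T α t)} with hG
  set s : ℕ := Nat.card S with hs
  set v : ℕ := Nat.card V with hv
  set M : ℕ := s ^ Fintype.card X with hM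
  have f1 : (s - 1) * M ≤ s * A := by
    have g1 : s * A + s * A' = s * M := by rw [← mul_add, hcompl]
    have g2 : s * A' ≤ M := by rw [mul_comm]; exact hbad
    have g3 : (s - 1) * M = s * M - M := by rw [Nat.sub_mul, one_mul]
    omega
  have f2 : A * (B * v ^ Fintype.card X) ≤ G * v := hsum.trans (Nat.mul_le_mul_right _ htot)
  calc (s - 1) * B * (s * v) ^ Fintype.card X
      = ((s - 1) * M) * (B * v ^ Fintype.card X) := by rw [mul_pow]; ring
    _ ≤ (s * A) * (B * v ^ Fintype.card X) := Nat.mul_le_mul_right _ f1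
    _ = s * (A * (B * v ^ Fintype.card X)) := by ring
    _ ≤ s * (G * v) := Nat.mul_le_mul_left _ f2
    _ = s * v * G := by ring

end Pool.Agent.PFS
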